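import Pool.Agent.Results.MP_c50dba_nt.NearPadicPoints
import Pool.Agent.V11265.NN

/-!
# `p`-adic Schanuel conjecture in bounded degree: ALL integers near the powers of almost every real number

Let `L` be an Iwasawa `p`-adic logarithm, on the algebraic closure of `ℚ_p` or on any field `A ⊇ ℚ_p`, and let `V_j`, `j` in a
countable set, be spaces of at most `D` constants in `A`, for example the spaces of the combinations of the monomials of
degree at most `δ` in given logarithms `log_p a_1, …, log_p a_r`. The positive integer `m` is exceptional for `V` if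
`log_p m` is a zero of a nonzero polynomial of degree at most `δ` whose coefficients are combinations of elements of `V` over
a number field of degree at most `d` (of any height). There is `κ > 0` which depends only on `δ`, `d` and `D` such that for
every `p`, all `ν` with `ν n / log n → ∞`, for example `ν n = n`, all `θ < 1` and all `z > 1` outside a set of Hausdorff
dimension at most `(1 - κ) / (1 - θ)` NO large integer `m` with `|m - b z ^ (ν n)| ≤ z ^ (θ ν n)` for some `n` is exceptional
for `V_j`.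
-/

set_option autoImplicit false

open MeasureTheory Filter Module Topology

namespace Pool.Agent.Results.MP_c50dba_nt.IntegersNearPowers

open Pool.Agent.V11001.KM (Fast Near)
open Pool.Agent.Results.MP_c50dba_nt.ResidueBoxes (IsIwasawaLog HasRelation)

/-- **Theorem.** For all `δ`, `d`, `D` there is `κ` with `0 < κ ≤ 1` such that for all primes `p`, all Iwasawa logarithms `L`
on fields `A ⊇ ℚ_p`, all countable families `V j` of spaces of dimension at most `D`, all `ν` with `ν n / log n → ∞`, all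
countable sets `U` of real numbers and all `θ < 1` there is a set `E` of Hausdorff dimension at most `(1 - κ) / (1 - θ)` such
that for all `z > 1` outside `E`, all `b > 0` in `U` and all `j` the number `log_p m` satisfies no nontrivial relation of degree
at most `δ` with coefficients which are combinations of elements of `V j` over a number field of degree at most `d`, for
ALL large integers `m` with `|m - b z ^ (ν n)| ≤ z ^ (θ ν n)` for some `n`. -/
theorem result (δ d D : ℕ) : ∃ κ : ℝ, 0 < κ ∧ κ ≤ 1 ∧ ∀ (p : ℕ) [Fact p.Prime] (A : Type) [NormedField A]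
    [NormedAlgebra ℚ_[p] A] [CharZero A] (L : A → A), IsIwasawaLog p A L →
    ∀ (J : Type) [Countable J] (V : J → Submodule ℚ A), (∀ j, Module.Finite ℚ (V j)) → (∀ j, finrank ℚ (V j) ≤ D) →
    ∀ ν : ℕ → ℝ, Fast ν → ∀ U : Set ℝ, U.Countable → ∀ θ : ℝ, θ < 1 →
      ∃ E : Set ℝ, dimH E ≤ ENNReal.ofReal ((1 - κ) / (1 - θ)) ∧ ∀ z : ℝ, 1 < z → z ∉ E → ∀ b ∈ U, 0 < b → ∀ j : J,
        ∃ m₀ : ℝ, ∀ m : ℕ, 1 ≤ m → m₀ ≤ m → Near ν θ b z m → ¬ HasRelation δ d (V j) (fun _ : Fin 1 => L (m : A)) := by
  classical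
  obtain ⟨κ, hκ, hκ1, hcount⟩ := NearPadicPoints.counts 1 δ d D le_rfl
  refine ⟨κ, hκ, hκ1, fun p _ A _ _ _ L hL J _ V hV hVD ν hν U hU θ hθ => ?_⟩
  obtain ⟨C, hC0, hC⟩ := hcount p
  obtain ⟨E, h1, h2⟩ := Pool.Agent.V11265.NN.near_nat (ι := J)
    (fun j => {m : ℕ | 1 ≤ m ∧ HasRelation δ d (V j) (fun _ : Fin 1 => L (m : A))}) (s := 1 - κ) (by linarith)
    (fun j => by
      refine ⟨C, fun X hX => ?_⟩
      obtain ⟨g1, g2⟩ := hC A L hL (V j) (hV j) (hVD j) X hX
      have hinj : Function.Injective (fun m : ℕ => (fun _ : Fin 1 => m)) := fun a b h => congrFun h 0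
      have hsub : (fun m : ℕ => (fun _ : Fin 1 => m)) '' {t : ℕ | t ∈ {m : ℕ | 1 ≤ m ∧
          HasRelation δ d (V j) (fun _ : Fin 1 => L (m : A))} ∧ (t : ℝ) ≤ X} ⊆
          {t : Fin 1 → ℕ | (∀ i, (t i : ℝ) ≤ X) ∧ NearPadicPoints.Exceptional L δ d (V j) t} := by
        rintro _ ⟨m, ⟨⟨hm1, hm2⟩, hm3⟩, rfl⟩
        exact ⟨fun _ => hm3, fun _ => hm1, hm2⟩
      have h3 := Set.ncard_le_ncard hsub g1
      rw [Set.ncard_image_of_injective _ hinj] at h3
      have h4 : ((({t : ℕ | t ∈ {m : ℕ | 1 ≤ m ∧ HasRelation δ d (V j) (fun _ : Fin 1 => L (m : A))} ∧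
          (t : ℝ) ≤ X}.ncard : ℕ)) : ℝ) ≤ C * X ^ (((1 : ℕ) : ℝ) - κ) := le_trans (by exact_mod_cast h3) g2
      simpa using h4)
    hν hθ U hU
  refine ⟨E, h1, fun z hz hzE b hb hb0 j => ?_⟩
  obtain ⟨m₀, h3⟩ := h2 z hz hzE b hb hb0 j
  exact ⟨m₀, fun m hm1 hm hn hrel => h3 m hm hn ⟨hm1, hrel⟩⟩

end Pool.Agent.Results.MP_c50dba_nt.IntegersNearPowers
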