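import Pool.Agent.Results.MP_c50dba_nt.ResidueBoxes
import Pool.Agent.H223.PS.Count
import Pool.Agent.H107.MetricFam
import Pool.Agent.V11286.NE.Vol
import Pool.Agent.V11286.NE.Tup

/-!
# `p`-adic Schanuel conjecture in bounded degree: ALL tuples of integers near almost every `p`-adic point, and in windows

Let `L` be an Iwasawa `p`-adic logarithm, on the algebraic closure of `ℚ_p` or on any field `A ⊇ ℚ_p`, and let `V` be a space of
at most `D` constants in `A`. The `k`-tuple `t` of positive integers is exceptional if `log_p t_1, …, log_p t_k` satisfy a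
nontrivial polynomial relation of degree at most `δ` whose coefficients are combinations of elements of `V` over a number field
of degree at most `d` (of any height). There is `κ > 0` which depends only on `k`, `δ`, `d` and `D` such that for every `p`:

1. all but `C T ^ (k - κ)` of the tuples of positive integers `t_i ≤ T` are not exceptional (a saving of a power; `C` depends
   only on `p`, `k`, `δ`, `d`, `D`);
2. for every `σ > 0` there is a set `E` of points of `ℤ_p ^ k` of Hausdorff dimension at most `(k - κ) / σ` (less than the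
   dimension `k` of the space if `σ > 1 - κ / k`) such that for each `α` outside of `E` and all large `T` there is NO exceptional
   tuple `t` with `t_i ≤ T` and `|t_i - α_i|_p ≤ T ^ (-σ)` (for `σ < 1` there are about `T ^ (k (1 - σ))` tuples of this kind);
3. for almost all `α` in `ℝ ^ k` and large `n` there is NO exceptional tuple in the window `|t_i - α_i v_n| ≤ v_n ^ θ`,
   `k θ < κ`, around the member `α v_n` of any sequence `α v`, `v_n ≥ 1` of exponent of convergence zero (for example `2 ^ n`).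

In the starting files (`AlmostAllTuples`, `AlmostAllTuplesRate`, `ResidueBoxes`) there are unknown exceptional tuples. The proof
starts from `ResidueBoxes`, where the number of the exceptional tuples in boxes of residue classes modulo powers of `p` is
bounded: the boxes which consist of all residue classes modulo `p ^ e` cover the tuples `t` prime to `p` with `t_i ≤ T` for
`p ^ e` of the order `T ^ (1 - κ)`; the powers of `p` do not change the logarithms; the exceptional tuples are then so sparse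
that almost no point is close to infinitely many of them.
-/

set_option autoImplicit false

open MeasureTheory Filter Module Topology

namespace Pool.Agent.Results.MP_c50dba_nt.NearPadicPoints

open Pool.Agent.Results.MP_c50dba_nt.ResidueBoxes (IsIwasawaLog HasRelation)

/-- The exponent of convergence of the sequence `v` is zero. -/
def ExponentZero (v : ℕ → ℝ) : Prop := ∀ s : ℝ, 0 < s → Summable (fun n : ℕ => (v n) ^ (-s))

/-- The tuple `t` consists of positive integers whose logarithms satisfy a nontrivial relation of degree at most `δ` with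
coefficients which are combinations of elements of `V` over a number field of degree at most `d`. -/
def Exceptional {A : Type} [Field A] [CharZero A] {k : ℕ} (L : A → A) (δ d : ℕ) (V : Submodule ℚ A) (t : Fin k → ℕ) : Prop :=
  (∀ i, 1 ≤ t i) ∧ HasRelation δ d V (fun i => L (t i : A))

/-- For all large `T` no tuple `t` of integers `t_i ≤ T` with `|t_i - α_i|_p ≤ T ^ (-σ)` is exceptional. -/
def NoneNearPoint {p : ℕ} [Fact p.Prime] {A : Type} [Field A] [CharZero A] {k : ℕ} (L : A → A) (δ d : ℕ)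
    (V : Submodule ℚ A) (σ : ℝ) (α : Fin k → ℤ_[p]) : Prop :=
  ∃ T₀ : ℝ, ∀ T ≥ T₀, ∀ t : Fin k → ℕ, (∀ i, (t i : ℝ) ≤ T ∧ ‖(t i : ℤ_[p]) - α i‖ ≤ T ^ (-σ)) →
    ¬ Exceptional L δ d V t

/-- For all large `n` no tuple `t` of integers with `|t_i - α_i v_n| ≤ v_n ^ θ` is exceptional. -/
def NoneInWindows {A : Type} [Field A] [CharZero A] {k : ℕ} (L : A → A) (δ d : ℕ) (V : Submodule ℚ A) (v : ℕ → ℝ)
    (θ : ℝ) (α : Fin k → ℝ) : Prop :=
  ∃ n₀ : ℕ, ∀ n : ℕ, n₀ ≤ n → ∀ t : Fin k → ℕ, (∀ i, |(t i : ℝ) - α i * v n| ≤ (v n) ^ θ) → ¬ Exceptional L δ d V t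

lemma log_mul_pow {p : ℕ} [Fact p.Prime] {A : Type} [NormedField A] [NormedAlgebra ℚ_[p] A] [CharZero A] {L : A → A}
    (hL : IsIwasawaLog p A L) (n : ℕ) {x : A} (hx : x ≠ 0) : L ((p : A) ^ n * x) = L x := by
  have hp : (p : A) ≠ 0 := by exact_mod_cast (Fact.out : p.Prime).ne_zero
  induction n with
  | zero => rw [pow_zero, one_mul]
  | succ n ih =>
    rw [pow_succ', mul_assoc, hL.1 _ _ hp (mul_ne_zero (pow_ne_zero _ hp) hx), hL.2.1, zero_add, ih]

theorem counts (k δ d D : ℕ) (hk : 1 ≤ k) : ∃ κ : ℝ, 0 < κ ∧ κ ≤ 1 ∧ ∀ (p : ℕ) [Fact p.Prime], ∃ C : ℝ, 0 ≤ C ∧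
    ∀ (A : Type) [NormedField A] [NormedAlgebra ℚ_[p] A] [CharZero A] (L : A → A), IsIwasawaLog p A L →
    ∀ V : Submodule ℚ A, Module.Finite ℚ V → finrank ℚ V ≤ D → ∀ T : ℝ, 1 ≤ T →
      {t : Fin k → ℕ | (∀ i, (t i : ℝ) ≤ T) ∧ Exceptional L δ d V t}.Finite ∧
      ({t : Fin k → ℕ | (∀ i, (t i : ℝ) ≤ T) ∧ Exceptional L δ d V t}.ncard : ℝ) ≤ C * T ^ ((k : ℝ) - κ) := by
  classical
  obtain ⟨E, hE⟩ := Pool.Agent.Results.MP_c50dba_nt.ResidueBoxes.result k δ d D
  have hE0 : (0 : ℝ) ≤ E := Nat.cast_nonneg E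
  refine ⟨1 / (2 * ((E : ℝ) + 2)), by positivity, ?_, fun p _ => ?_⟩
  · rw [div_le_one (by positivity)]
    linarith
  obtain ⟨C, hC, h⟩ := Pool.Agent.H223.PS.count_all p (Fact.out : p.Prime) k E (k * (D + 1) + k.choose 2) hk
  refine ⟨C, hC, fun A _ _ _ L hL V hV hVD T hT => ?_⟩
  have h1 := h (fun t => HasRelation δ d V fun i => L (t i : A)) ?_ ?_ T hT
  · have hset : {t : Fin k → ℕ | (∀ i, (t i : ℝ) ≤ T) ∧ Exceptional L δ d V t} =
        {t : Fin k → ℕ | (∀ i, 1 ≤ t i ∧ (t i : ℝ) ≤ T) ∧ HasRelation δ d V fun i => L (t i : A)} := by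
      ext t
      simp only [Set.mem_ofPred_eq, Exceptional]
      constructor
      · rintro ⟨a, b, c⟩
        exact ⟨fun i => ⟨b i, a i⟩, c⟩
      · rintro ⟨a, c⟩
        exact ⟨fun i => (a i).2, fun i => (a i).1, c⟩
    rw [hset]
    exact h1
  · intro a t ht hrel
    have h2 : (fun i => L ((p ^ a i * t i : ℕ) : A)) = fun i => L (t i : A) := by
      funext i
      have h3 : (t i : A) ≠ 0 := by
        have := ht i
        exact_mod_cast (by omega : t i ≠ 0)
      rw [Nat.cast_mul, Nat.cast_pow, log_mul_pow hL (a i) h3]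
    rw [← h2]
    exact hrel
  · intro _ H e v hHe hv
    have h2 := hE p A L hL V hV hVD H (fun _ => e) v (fun i => ⟨hHe, hv i⟩)
    refine le_trans (le_of_eq ?_) h2
    congr 1
    ext g
    simp only [Finset.mem_filter]

/-- near the points of `ℤ_p ^ k` -/
theorem near {k δ d : ℕ} {κ : ℝ} (hκ : κ ≤ 1) (hk : 1 ≤ k) {p : ℕ} [Fact p.Prime] {A : Type} [NormedField A]
    [NormedAlgebra ℚ_[p] A] [CharZero A] {L : A → A} {C : ℝ} (V : ℕ → Submodule ℚ A)
    (h : ∀ j, ∀ T : ℝ, 1 ≤ T → {t : Fin k → ℕ | (∀ i, (t i : ℝ) ≤ T) ∧ Exceptional L δ d (V j) t}.Finite ∧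
      ({t : Fin k → ℕ | (∀ i, (t i : ℝ) ≤ T) ∧ Exceptional L δ d (V j) t}.ncard : ℝ) ≤ C * T ^ ((k : ℝ) - κ))
    (hC : 0 ≤ C) {σ : ℝ} (hσ : 0 < σ) :
    ∃ E : Set (Fin k → ℤ_[p]), dimH E ≤ ENNReal.ofReal (((k : ℝ) - κ) / σ) ∧ ∀ α ∉ E, ∀ j,
      NoneNearPoint L δ d (V j) σ α := by
  classical
  have hk1 : (1 : ℝ) ≤ k := by exact_mod_cast hk
  set φ : (Fin k → ℕ) → (Fin k → ℤ_[p]) := fun t i => (t i : ℤ_[p]) with hφ
  set ht : (Fin k → ℕ) → ℝ := fun t => max 1 ‖fun i => (t i : ℝ)‖ with hht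
  obtain ⟨E, hE1, hE2⟩ := Pool.Agent.H107.ME.dim_family φ ht (fun t => le_max_left _ _) (s := (k : ℝ) - κ)
    (by linarith) hσ (fun j : ℕ => {t : Fin k → ℕ | Exceptional L δ d (V j) t}) (fun j ε hε => by
      refine ⟨C, fun X hX => ?_⟩
      obtain ⟨g1, g2⟩ := h j X hX
      have hsub : {t | t ∈ {t : Fin k → ℕ | Exceptional L δ d (V j) t} ∧ ht t ≤ X} ⊆
          {t : Fin k → ℕ | (∀ i, (t i : ℝ) ≤ X) ∧ Exceptional L δ d (V j) t} := by
        rintro t ⟨a, b⟩
        refine ⟨fun i => ?_, a⟩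
        have h1 := norm_le_pi_norm (fun i => (t i : ℝ)) i
        rw [Real.norm_of_nonneg (Nat.cast_nonneg _)] at h1
        exact h1.trans ((le_max_right _ _).trans b)
      refine ⟨g1.subset hsub, ?_⟩
      have h2 : ({t | t ∈ {t : Fin k → ℕ | Exceptional L δ d (V j) t} ∧ ht t ≤ X}.ncard : ℝ) ≤
          ({t : Fin k → ℕ | (∀ i, (t i : ℝ) ≤ X) ∧ Exceptional L δ d (V j) t}.ncard : ℝ) := by
        exact_mod_cast Set.ncard_le_ncard hsub g1
      refine h2.trans (g2.trans (mul_le_mul_of_nonneg_left ?_ hC))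
      exact Real.rpow_le_rpow_of_exponent_le hX (by linarith))
  refine ⟨E ∪ Set.range φ, ?_, fun α hα j => ?_⟩
  · rw [dimH_union, (Set.countable_range φ).dimH_zero]
    exact max_le hE1 bot_le
  rw [Set.mem_union, not_or] at hα
  have hfin := hE2 α hα.1 j
  have hne : ∀ t ∈ {t | t ∈ {t : Fin k → ℕ | Exceptional L δ d (V j) t} ∧ dist (φ t) α ≤ (ht t) ^ (-σ)},
      ∀ᶠ T : ℝ in atTop, T ^ (-σ) < dist (φ t) α := by
    intro t _
    have h1 : 0 < dist (φ t) α := dist_pos.2 fun h2 => hα.2 ⟨t, h2⟩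
    exact (tendsto_rpow_neg_atTop hσ).eventually (gt_mem_nhds h1)
  obtain ⟨T₀, hT₀⟩ := eventually_atTop.1 ((Filter.eventually_all_finite hfin).2 hne)
  refine ⟨max T₀ 1, fun T hT t htT hexc => ?_⟩
  have hT1 : 1 ≤ T := (le_max_right _ _).trans hT
  have hT0 : 0 < T := by linarith
  have hdist : dist (φ t) α ≤ T ^ (-σ) := by
    rw [dist_pi_le_iff (Real.rpow_nonneg hT0.le _)]
    intro i
    rw [dist_eq_norm]
    exact (htT i).2
  have hle : ht t ≤ T := by
    refine max_le hT1 ?_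
    rw [pi_norm_le_iff_of_nonneg hT0.le]
    intro i
    rw [Real.norm_of_nonneg (Nat.cast_nonneg _)]
    exact (htT i).1
  have hmem : t ∈ {t | t ∈ {t : Fin k → ℕ | Exceptional L δ d (V j) t} ∧ dist (φ t) α ≤ (ht t) ^ (-σ)} := by
    refine ⟨hexc, hdist.trans ?_⟩
    exact Real.rpow_le_rpow_of_nonpos (lt_of_lt_of_le one_pos (le_max_left _ _)) hle (by linarith)
  have h3 := hT₀ T ((le_max_left _ _).trans hT) t hmem
  linarith

/-- windows along sequences -/
theorem windows {k δ d : ℕ} {κ : ℝ} (hκ : κ ≤ 1) (hk : 1 ≤ k) {A : Type} [Field A] [CharZero A] {L : A → A} {C : ℝ}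
    {V : Submodule ℚ A}
    (h : ∀ T : ℝ, 1 ≤ T → {t : Fin k → ℕ | (∀ i, (t i : ℝ) ≤ T) ∧ Exceptional L δ d V t}.Finite ∧
      ({t : Fin k → ℕ | (∀ i, (t i : ℝ) ≤ T) ∧ Exceptional L δ d V t}.ncard : ℝ) ≤ C * T ^ ((k : ℝ) - κ))
    {v : ℕ → ℝ} (hv1 : ∀ n, 1 ≤ v n) (hv : ExponentZero v) {θ : ℝ} (hθ : k * θ < κ) :
    ∀ᵐ α : Fin k → ℝ, NoneInWindows L δ d V v θ α := by
  have hk1 : (1 : ℝ) ≤ k := by exact_mod_cast hk
  have hθ1 : θ ≤ 1 := by
    by_contra hcon
    push Not at hcon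
    nlinarith
  refine Pool.Agent.V11286.NE.ae_tuples (k := k) {t : Fin k → ℕ | Exceptional L δ d V t} (c := κ) (C := C)
    (fun T hT => ?_) (by linarith) hv1 hv hθ1 hθ
  have h1 := (h T (by exact_mod_cast hT)).2
  have hset : {t : Fin k → ℕ | (∀ i, (t i : ℝ) ≤ T) ∧ Exceptional L δ d V t} =
      {t : Fin k → ℕ | (∀ i, t i ≤ T) ∧ t ∈ {t : Fin k → ℕ | Exceptional L δ d V t}} := by
    ext t
    simp only [Set.mem_ofPred_eq, Nat.cast_le]
  rw [hset] at h1
  exact h1

/-- **Main result.** For all `k ≥ 1`, `δ`, `d`, `D` there is `κ` with `0 < κ ≤ 1` such that for all primes `p`: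
(1) there is `C` such that for all Iwasawa logarithms `L` on fields `A ⊇ ℚ_p` and all `V` of dimension at most `D` at most
`C T ^ (k - κ)` of the tuples of positive integers `t_i ≤ T` are exceptional;
(2) for all sequences of spaces `V j` of dimension at most `D` and all `σ > 0`, outside of a set of points `α` of `ℤ_p ^ k` of
Hausdorff dimension at most `(k - κ) / σ` no exceptional tuple `t` with `t_i ≤ T` satisfies `|t_i - α_i|_p ≤ T ^ (-σ)`, for
all large `T`;
(3) for `v ≥ 1` of exponent of convergence zero and `k θ < κ`, for almost all `α` in `ℝ ^ k` and all `j` no tuple `t` with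
`|t_i - α_i v_n| ≤ v_n ^ θ` is exceptional, for all large `n`.
(4) For fixed `k`, `p`, `L` and `V` of finite dimension there are sets `E δ d` of dimension less than `k` such that for `α`
outside of all of them and all `δ`, `d` the conclusion of (2) holds with some `σ < 1`; and for almost all `α` in `ℝ ^ k` and all
`δ`, `d` the conclusion of (3) holds with some `θ > 0`. -/
theorem result :
    (∀ k δ d D : ℕ, 1 ≤ k → ∃ κ : ℝ, 0 < κ ∧ κ ≤ 1 ∧ ∀ (p : ℕ) [Fact p.Prime],
      (∃ C : ℝ, ∀ (A : Type) [NormedField A] [NormedAlgebra ℚ_[p] A] [CharZero A] (L : A → A), IsIwasawaLog p A L →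
        ∀ V : Submodule ℚ A, Module.Finite ℚ V → finrank ℚ V ≤ D → ∀ T : ℝ, 1 ≤ T →
          {t : Fin k → ℕ | (∀ i, (t i : ℝ) ≤ T) ∧ Exceptional L δ d V t}.Finite ∧
          ({t : Fin k → ℕ | (∀ i, (t i : ℝ) ≤ T) ∧ Exceptional L δ d V t}.ncard : ℝ) ≤ C * T ^ ((k : ℝ) - κ)) ∧
      ∀ (A : Type) [NormedField A] [NormedAlgebra ℚ_[p] A] [CharZero A] (L : A → A), IsIwasawaLog p A L →
        ∀ V : ℕ → Submodule ℚ A, (∀ j, Module.Finite ℚ (V j) ∧ finrank ℚ (V j) ≤ D) →
        (∀ σ : ℝ, 0 < σ → ∃ E : Set (Fin k → ℤ_[p]), dimH E ≤ ENNReal.ofReal (((k : ℝ) - κ) / σ) ∧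
          ∀ α ∉ E, ∀ j, NoneNearPoint L δ d (V j) σ α) ∧
        (∀ v : ℕ → ℝ, (∀ n, 1 ≤ v n) → ExponentZero v → ∀ θ : ℝ, k * θ < κ →
          ∀ᵐ α : Fin k → ℝ, ∀ j, NoneInWindows L δ d (V j) v θ α)) ∧
    (∀ (k p : ℕ) [Fact p.Prime] (A : Type) [NormedField A] [NormedAlgebra ℚ_[p] A] [CharZero A] (L : A → A),
      1 ≤ k → IsIwasawaLog p A L → ∀ V : Submodule ℚ A, Module.Finite ℚ V →
      (∃ E : ℕ → ℕ → Set (Fin k → ℤ_[p]), (∀ δ d, dimH (E δ d) < k) ∧ ∀ α : Fin k → ℤ_[p], (∀ δ d, α ∉ E δ d) →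
        ∀ δ d, ∃ σ : ℝ, 0 < σ ∧ σ < 1 ∧ NoneNearPoint L δ d V σ α) ∧
      (∀ v : ℕ → ℝ, (∀ n, 1 ≤ v n) → ExponentZero v → ∀ᵐ α : Fin k → ℝ, ∀ δ d, ∃ θ : ℝ, 0 < θ ∧
        NoneInWindows L δ d V v θ α)) := by
  refine ⟨fun k δ d D hk => ?_, fun k p _ A _ _ _ L hk hL V hV => ?_⟩
  · obtain ⟨κ, hκ0, hκ1, h⟩ := counts k δ d D hk
    refine ⟨κ, hκ0, hκ1, fun p _ => ?_⟩
    obtain ⟨C, hC, hC2⟩ := h p
    refine ⟨⟨C, hC2⟩, fun A _ _ _ L hL V hV => ⟨fun σ hσ => ?_, fun v hv1 hv θ hθ => ?_⟩⟩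
    · exact near hκ1 hk V (fun j => hC2 A L hL (V j) (hV j).1 (hV j).2) hC hσ
    · rw [ae_all_iff]
      intro j
      exact windows hκ1 hk (hC2 A L hL (V j) (hV j).1 (hV j).2) hv1 hv hθ
  · have hk1 : (1 : ℝ) ≤ k := by exact_mod_cast hk
    choose κ hκ0 hκ1 h using fun δ d : ℕ => counts k δ d (finrank ℚ V) hk
    choose C hC hC2 using fun δ d : ℕ => h δ d p
    constructor
    · have hσ : ∀ δ d, 0 < 1 - κ δ d / (2 * k) ∧ 1 - κ δ d / (2 * k) < 1 ∧
          ((k : ℝ) - κ δ d) / (1 - κ δ d / (2 * k)) < k := by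
        intro δ d
        have h0 := hκ0 δ d
        have h1 := hκ1 δ d
        have h2 : κ δ d / (2 * k) ≤ 1 / 2 := by
          rw [div_le_iff₀ (by positivity)]
          linarith
        have h3 : 0 < κ δ d / (2 * k) := by positivity
        refine ⟨by linarith, by linarith, ?_⟩
        rw [div_lt_iff₀ (by linarith)]
        have h4 : (k : ℝ) * (1 - κ δ d / (2 * k)) = k - κ δ d / 2 := by
          field_simp
        rw [h4]
        linarith
      choose E hE1 hE2 using fun δ d : ℕ => near (p := p) (hκ1 δ d) hk (fun _ : ℕ => V)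
        (fun _ => hC2 δ d A L hL V hV le_rfl) (hC δ d) (hσ δ d).1
      refine ⟨E, fun δ d => ?_, fun α hα δ d => ⟨1 - κ δ d / (2 * k), (hσ δ d).1, (hσ δ d).2.1, hE2 δ d α (hα δ d) 0⟩⟩
      refine (hE1 δ d).trans_lt ?_
      rw [← ENNReal.ofReal_natCast k]
      exact (ENNReal.ofReal_lt_ofReal_iff (by linarith)).2 (hσ δ d).2.2
    · intro v hv1 hv
      rw [ae_all_iff]
      intro δ
      rw [ae_all_iff]
      intro d
      have h0 := hκ0 δ d
      have h3 : (k : ℝ) * (κ δ d / (2 * k)) < κ δ d := by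
        have h4 : (k : ℝ) * (κ δ d / (2 * k)) = κ δ d / 2 := by field_simp
        rw [h4]
        linarith
      filter_upwards [windows (hκ1 δ d) hk (hC2 δ d A L hL V hV le_rfl) hv1 hv h3] with α hα
      exact ⟨κ δ d / (2 * k), by positivity, hα⟩

end Pool.Agent.Results.MP_c50dba_nt.NearPadicPoints
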