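import Mathlib
import Pool.Agent.Results.MP_c50dba_nt.OnlyDiagonalRelations
import Pool.Agent.V11326.WT
import Pool.Agent.V11326.WI

/-!
# `p`-adic Schanuel conjecture: ALL tuples of logarithms with indices near `α_1 v_n, …, α_k v_n` have no mixed relations

Let `λ_0, λ_1, …` be `p`-adic logarithms of algebraic numbers, linearly independent over `ℚ`, let `U ∋ 1` be a space of
dimension at most `N` over the algebraic numbers and `c = 1 / ((D - 1) N + 1)`. Let `v_0, v_1, … ≥ 1` have exponent of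
convergence at most `τ` and let `θ < 1`. There is a set `F ⊆ ℝ ^ k` of Hausdorff dimension at most `(k - c + τ) / (1 - θ)`,
of measure zero if `τ + k θ < c`, such that for all `α` outside `F` and all large `n`, for ALL tuples `s` of natural numbers
with `|s_i - α_i v_n| ≤ v_n ^ θ` for all `i`: every polynomial `P` with coefficients in `U`, whose mixed monomials are
squarefree and whose pure monomials have degree at most `D`, with a value at `(λ_(s 1), …, λ_(s k))` which is a linear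
combination with algebraic coefficients of `1`, of given numbers `γ_1, …, γ_g` and of logarithms of algebraic numbers, has no
mixed monomials. The prime `p`, the `λ_i`, the space `U` and the numbers `γ` may depend on `n`, and countably many such
families are treated at once. For sequences with exponent of convergence `0` and almost every `α` the statement holds for
ALL `D` and all `θ < c / k` at once, also if the bounds for the dimension of `U` and for the number of the `γ` depend on the family.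

The proof combines the starting result `OnlyDiagonalRelations` with a covering argument in `ℝ ^ k`. The definitions
`IsIwasawaLog`, `LinForms` and `HasMixedRelation` are those of that file.
-/

set_option autoImplicit false

open MeasureTheory

namespace Pool.Agent.Results.MP_c50dba_nt.TuplesInWindows

open Pool.Agent.Results.MP_c50dba_nt.OnlyDiagonalRelations

/-- The exponent of convergence of the sequence `v` is at most `τ`: the sum of the `v_n ^ (-p)` converges for all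
`p > τ`. -/
def ExpLe (v : ℕ → ℝ) (τ : ℝ) : Prop := ∀ p : ℝ, τ < p → Summable fun n => (v n) ^ (-p)

/-- A prime `p`, the Iwasawa logarithm `L` on the algebraic closure of `ℚ_p`, a sequence `l` of values of `L` at nonzero
algebraic numbers which are linearly independent over `ℚ`, `g` elements `γ` of the algebraic closure of `ℚ_p` and a
space `U ∋ 1` of dimension at most `N` over the algebraic numbers. -/
structure Setup (N g : ℕ) where
  p : ℕ
  [prime : Fact p.Prime]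
  L : PadicAlgCl p → PadicAlgCl p
  isLog : IsIwasawaLog p L
  l : ℕ → PadicAlgCl p
  isValue : ∀ i, ∃ α : PadicAlgCl p, α ≠ 0 ∧ IsAlgebraic ℚ α ∧ l i = L α
  indep : LinearIndependent ℚ l
  γ : Fin g → PadicAlgCl p
  U : Submodule (algebraicClosure ℚ (PadicAlgCl p)) (PadicAlgCl p)
  finDim : FiniteDimensional (algebraicClosure ℚ (PadicAlgCl p)) U
  rank_le : Module.finrank (algebraicClosure ℚ (PadicAlgCl p)) U ≤ N
  one_mem : (1 : PadicAlgCl p) ∈ U

/-- The `k`-tuples `s` of natural numbers for which the logarithms with indices `s_1, …, s_k` have a relation with a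
mixed monomial. -/
def Bad {N g : ℕ} (d : Setup N g) (D k : ℕ) : Set (Fin k → ℕ) :=
  {s | haveI := d.prime; HasMixedRelation d.L D d.U d.γ fun i => d.l (s i)}

theorem count (k D N g : ℕ) (hk : 1 ≤ k) (hD : 1 ≤ D) : ∃ K : ℝ, ∀ d : Setup N g, ∀ T : ℕ, 1 ≤ T →
    {m : Fin k → ℕ | m ∈ Bad d D k ∧ ∀ i, m i ≤ T}.Finite ∧
    ({m : Fin k → ℕ | m ∈ Bad d D k ∧ ∀ i, m i ≤ T}.ncard : ℝ) ≤
      K * (T : ℝ) ^ ((k : ℝ) - 1 / (((D - 1) * N + 1 : ℕ) : ℝ)) := by
  classical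
  obtain ⟨K, hK⟩ := OnlyDiagonalRelations.result k D N g hD
  have hk1 : (1 : ℝ) ≤ k := by exact_mod_cast hk
  have hc1 : 1 / (((D - 1) * N + 1 : ℕ) : ℝ) ≤ 1 := by
    rw [div_le_one (by positivity)]
    exact_mod_cast Nat.le_add_left 1 _
  refine ⟨|K| * 2 ^ ((k : ℝ) - 1 / (((D - 1) * N + 1 : ℕ) : ℝ)), fun d T hT => ?_⟩
  haveI := d.prime
  have h1 := hK d.p d.L d.isLog (T + 1) (fun i => d.l i) (fun i => d.isValue i)
    (d.indep.comp (fun i : Fin (T + 1) => (i : ℕ)) Fin.val_injective) d.γ d.U d.finDim d.rank_le d.one_mem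
  obtain ⟨W, hW⟩ : ∃ W : Finset (Fin k → Fin (T + 1)), W = Finset.univ.filter fun s : Fin k → Fin (T + 1) =>
    HasMixedRelation d.L D d.U d.γ fun i => d.l (s i) := ⟨_, rfl⟩
  have hWc : (W.card : ℝ) ≤ K * ((T + 1 : ℕ) : ℝ) ^ ((k : ℝ) - 1 / (((D - 1) * N + 1 : ℕ) : ℝ)) := by
    rw [hW]
    convert h1 using 3
  have hsub : {m : Fin k → ℕ | m ∈ Bad d D k ∧ ∀ i, m i ≤ T} ⊆
      ((W.image fun (s : Fin k → Fin (T + 1)) (i : Fin k) => ((s i : ℕ))) : Finset (Fin k → ℕ)) := by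
    rintro m ⟨hm1, hm2⟩
    rw [Finset.mem_coe, Finset.mem_image]
    refine ⟨fun i => ⟨m i, Nat.lt_succ_of_le (hm2 i)⟩, ?_, rfl⟩
    rw [hW, Finset.mem_filter]
    exact ⟨Finset.mem_univ _, hm1⟩
  refine ⟨(Finset.finite_toSet _).subset hsub, ?_⟩
  have h2 : ({m : Fin k → ℕ | m ∈ Bad d D k ∧ ∀ i, m i ≤ T}.ncard : ℝ) ≤ W.card := by
    have h3 := Set.ncard_le_ncard hsub (Finset.finite_toSet _)
    rw [Set.ncard_coe_finset] at h3
    exact_mod_cast h3.trans Finset.card_image_le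
  have hT1 : (1 : ℝ) ≤ T := by exact_mod_cast hT
  calc ({m : Fin k → ℕ | m ∈ Bad d D k ∧ ∀ i, m i ≤ T}.ncard : ℝ) ≤ W.card := h2
    _ ≤ K * ((T + 1 : ℕ) : ℝ) ^ ((k : ℝ) - 1 / (((D - 1) * N + 1 : ℕ) : ℝ)) := hWc
    _ ≤ |K| * (2 * (T : ℝ)) ^ ((k : ℝ) - 1 / (((D - 1) * N + 1 : ℕ) : ℝ)) := by
        refine mul_le_mul (le_abs_self _) ?_ (Real.rpow_nonneg (Nat.cast_nonneg _) _) (abs_nonneg _)
        refine Real.rpow_le_rpow (Nat.cast_nonneg _) ?_ (by linarith)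
        push_cast
        linarith
    _ = |K| * 2 ^ ((k : ℝ) - 1 / (((D - 1) * N + 1 : ℕ) : ℝ)) *
        (T : ℝ) ^ ((k : ℝ) - 1 / (((D - 1) * N + 1 : ℕ) : ℝ)) := by
        rw [Real.mul_rpow (by norm_num) (by linarith), mul_assoc]

theorem windows (k D N g : ℕ) (hk : 1 ≤ k) (hD : 1 ≤ D) (d : ℕ → ℕ → Setup N g) (v : ℕ → ℝ) (τ θ : ℝ)
    (hpos : ∀ n, 1 ≤ v n) (hτ : 0 ≤ τ) (hv : ExpLe v τ) (hθ : θ < 1) :
    ∃ F : Set (Fin k → ℝ), dimH F ≤ ENNReal.ofReal (((k : ℝ) - 1 / (((D - 1) * N + 1 : ℕ) : ℝ) + τ) / (1 - θ)) ∧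
      (τ + k * θ < 1 / (((D - 1) * N + 1 : ℕ) : ℝ) → volume F = 0) ∧
      ∀ α : Fin k → ℝ, α ∉ F → ∀ j : ℕ, ∃ n₀ : ℕ, ∀ n : ℕ, n₀ ≤ n → ∀ s : Fin k → ℕ,
        (∀ i, |(s i : ℝ) - α i * v n| ≤ (v n) ^ θ) → s ∉ Bad (d j n) D k := by
  obtain ⟨K, hK⟩ := count k D N g hk hD
  have hk1 : (1 : ℝ) ≤ k := by exact_mod_cast hk
  have hc1 : 1 / (((D - 1) * N + 1 : ℕ) : ℝ) ≤ 1 := by
    rw [div_le_one (by positivity)]
    exact_mod_cast Nat.le_add_left 1 _
  obtain ⟨F, hF, h⟩ := Pool.Agent.V11326.WT.tuple_windows (c := 1 / (((D - 1) * N + 1 : ℕ) : ℝ)) (by linarith)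
    (fun j n => Bad (d j n) D k) (fun _ => K) (fun j n T hT => hK (d j n) T hT) hpos hτ hv hθ
  have hcard : (Fintype.card (Fin k) : ℝ) = k := by rw [Fintype.card_fin]
  refine ⟨F, hF, fun hc => ?_, h⟩
  exact Pool.Agent.V11326.WI.null (c := 1 / (((D - 1) * N + 1 : ℕ) : ℝ)) (by rw [hcard]; linarith) hτ hθ
    (by rw [hcard]; exact hF) (by rw [hcard]; exact hc)

/-- **Main result.** -/
theorem result (k : ℕ) (hk : 1 ≤ k) :
    (∀ (D N g : ℕ), 1 ≤ D → ∀ (d : ℕ → ℕ → Setup N g) (v : ℕ → ℝ) (τ θ : ℝ), (∀ n, 1 ≤ v n) → 0 ≤ τ → ExpLe v τ →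
      θ < 1 → ∃ F : Set (Fin k → ℝ),
        dimH F ≤ ENNReal.ofReal (((k : ℝ) - 1 / (((D - 1) * N + 1 : ℕ) : ℝ) + τ) / (1 - θ)) ∧
        (τ + k * θ < 1 / (((D - 1) * N + 1 : ℕ) : ℝ) → volume F = 0) ∧
        ∀ α : Fin k → ℝ, α ∉ F → ∀ j : ℕ, ∃ n₀ : ℕ, ∀ n : ℕ, n₀ ≤ n → ∀ s : Fin k → ℕ,
          (∀ i, |(s i : ℝ) - α i * v n| ≤ (v n) ^ θ) → s ∉ Bad (d j n) D k) ∧
    (∀ (N g : ℕ → ℕ) (d : (j : ℕ) → ℕ → Setup (N j) (g j)) (v : ℕ → ℝ), (∀ n, 1 ≤ v n) → ExpLe v 0 →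
      ∀ᵐ α : Fin k → ℝ, ∀ (j D : ℕ) (θ : ℝ), 1 ≤ D → k * θ < 1 / (((D - 1) * N j + 1 : ℕ) : ℝ) →
        ∃ n₀ : ℕ, ∀ n : ℕ, n₀ ≤ n → ∀ s : Fin k → ℕ,
          (∀ i, |(s i : ℝ) - α i * v n| ≤ (v n) ^ θ) → s ∉ Bad (d j n) D k) := by
  refine ⟨fun D N g hD d v τ θ hpos hτ hv hθ => windows k D N g hk hD d v τ θ hpos hτ hv hθ, ?_⟩
  intro N g d v hpos hv
  have hk1 : (1 : ℝ) ≤ k := by exact_mod_cast hk
  rw [ae_all_iff]
  intro j
  rw [ae_all_iff]
  intro D
  by_cases hD : 1 ≤ D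
  swap
  · exact Filter.Eventually.of_forall fun α θ hD' => absurd hD' hD
  obtain ⟨c, hc⟩ : ∃ c : ℝ, c = 1 / (((D - 1) * N j + 1 : ℕ) : ℝ) := ⟨_, rfl⟩
  have hc1 : c ≤ 1 := by
    rw [hc, div_le_one (by positivity)]
    exact_mod_cast Nat.le_add_left 1 _
  have hall : ∀ m : ℕ, ∀ᵐ α : Fin k → ℝ, ∃ n₀ : ℕ, ∀ n : ℕ, n₀ ≤ n → ∀ s : Fin k → ℕ,
      (∀ i, |(s i : ℝ) - α i * v n| ≤ (v n) ^ (c / k - 1 / ((m : ℝ) + 1))) → s ∉ Bad (d j n) D k := by
    intro m
    have hm : (0 : ℝ) < 1 / ((m : ℝ) + 1) := by positivity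
    have hck : c / k ≤ 1 := (div_le_one (by linarith)).2 (by linarith)
    obtain ⟨F, -, hF, h⟩ := windows k D (N j) (g j) hk hD (fun _ n => d j n) v 0 (c / k - 1 / ((m : ℝ) + 1)) hpos
      le_rfl hv (by linarith)
    have hF0 : volume F = 0 := by
      apply hF
      rw [← hc, zero_add, mul_sub, mul_div_cancel₀ _ (by linarith : (k : ℝ) ≠ 0)]
      have : 0 < (k : ℝ) * (1 / ((m : ℝ) + 1)) := by positivity
      linarith
    filter_upwards [compl_mem_ae_iff.2 hF0] with α hα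
    exact h α hα 0
  rw [← ae_all_iff] at hall
  filter_upwards [hall] with α hα θ _ hθ
  rw [← hc] at hθ
  have hθ' : θ < c / k := by
    rw [lt_div_iff₀ (by linarith), mul_comm]
    exact hθ
  obtain ⟨m, hm⟩ := exists_nat_one_div_lt (sub_pos.2 hθ')
  obtain ⟨n₀, hn⟩ := hα m
  refine ⟨n₀, fun n hn1 s hs => hn n hn1 s fun i => (hs i).trans ?_⟩
  exact Real.rpow_le_rpow_of_exponent_le (hpos n) (by linarith)

end Pool.Agent.Results.MP_c50dba_nt.TuplesInWindows
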