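import Pool.Agent.Results.MP_c50dba_nt.NearPadicPoints
import Pool.Agent.H107.MetricFam
import Pool.Agent.H2N.NearSpace

/-!
# `p`-adic Schanuel conjecture in bounded degree: ALL tuples of integers near almost every direction

Let `k ≥ 1`, `p` a prime, `L` an Iwasawa `p`-adic logarithm on the algebraic closure of `ℚ_p` or on any field `A ⊇ ℚ_p`, and
let `V_0, V_1, …` be spaces of at most `D` constants in `A`. There is `κ > 0` which depends only on `k`, `δ`, `d` and `D` such
that for almost every direction `z ∈ ℝ ^ k`, all `σ > (k + 1 - κ) / k` and all `j`, for ALL `(k + 1)`-tuples `t` of positive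
integers with `|t_i / t_{k + 1} - z_i| ≤ (max t_i) ^ (-σ)` for `i ≤ k`, except for finitely many, the logarithms
`L(t_1), …, L(t_{k+1})` satisfy no nontrivial polynomial relation of degree at most `δ` whose coefficients are combinations of
elements of `V_j` over a number field of degree at most `d` (of any height). Since `κ > 0`, exponents `σ < (k + 1) / k` are
allowed: by Dirichlet's theorem there are infinitely many such tuples near every `z` with positive coordinates. The proof
combines the count of `NearPadicPoints` with a covering argument.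
-/

set_option autoImplicit false

open Module MeasureTheory

namespace Pool.Agent.Results.MP_c50dba_nt.TuplesNearDirections

open Pool.Agent.Results.MP_c50dba_nt.ResidueBoxes (IsIwasawaLog HasRelation)

/-- the largest entry of the tuple -/
def top {n : ℕ} (x : Fin n → ℕ) : ℕ := Finset.univ.sup x

theorem le_top {n : ℕ} (x : Fin n → ℕ) (j : Fin n) : x j ≤ top x := Finset.le_sup (f := x) (Finset.mem_univ j)

/-- the height -/
noncomputable def ht {n : ℕ} (x : Fin n → ℕ) : ℝ := max 1 (top x : ℝ)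

theorem one_le_ht {n : ℕ} (x : Fin n → ℕ) : 1 ≤ ht x := le_max_left _ _

theorem ht_eq {n : ℕ} {x : Fin (n + 1) → ℕ} (hx : ∀ i, 1 ≤ x i) : ht x = top x := by
  refine max_eq_right ?_
  have h1 := le_top x 0
  have h2 := hx 0
  exact_mod_cast (by omega : 1 ≤ top x)

/-- **Theorem.** Let `k ≥ 1`; `top t` is the largest entry of `t`. For all `δ`, `d`, `D` there is `κ` with `0 < κ ≤ 1` such
that for every prime `p`, every Iwasawa logarithm `L` on a field `A` containing `ℚ_p` and every sequence `V_0, V_1, …` of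
rational subspaces of `A` of dimension at most `D`:
(1) For almost every `z ∈ ℝ ^ k`, all `σ > (k + 1 - κ) / k` and all `j` only finitely many `(k + 1)`-tuples `t` of positive
integers with `|t_i / t_{k + 1} - z_i| ≤ (top t) ^ (-σ)` for `i ≤ k` have the property that the `L(t_i)` satisfy a nontrivial
polynomial relation of degree at most `δ` whose coefficients are linear combinations of elements of `V_j` over a number
field of degree at most `d`.
(2) For every map `φ` from the tuples to a metric space `M` and `σ > 0` there is a set `E ⊆ M` of Hausdorff dimension at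
most `(k + 1 - κ) / σ` such that for all `z` outside `E` and all `j` the same holds for the tuples with
`dist (φ t, z) ≤ (top t) ^ (-σ)`. -/
theorem result (k δ d D : ℕ) (hk : 1 ≤ k) :
    ∃ κ : ℝ, 0 < κ ∧ κ ≤ 1 ∧
      ∀ (p : ℕ) [Fact p.Prime] (A : Type) [NormedField A] [NormedAlgebra ℚ_[p] A] [CharZero A] (L : A → A),
      IsIwasawaLog p A L → ∀ V : ℕ → Submodule ℚ A, (∀ j, Module.Finite ℚ (V j) ∧ finrank ℚ (V j) ≤ D) →
      (∀ᵐ z : Fin k → ℝ, ∀ σ : ℝ, ((k : ℝ) + 1 - κ) / k < σ → ∀ j : ℕ,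
        {t : Fin (k + 1) → ℕ | (∀ i, 1 ≤ t i) ∧
          (∀ i : Fin k, |(t i.castSucc : ℝ) / t (Fin.last k) - z i| ≤ (top t : ℝ) ^ (-σ)) ∧
          HasRelation δ d (V j) (fun i => L (t i : A))}.Finite) ∧
      ∀ (M : Type) [MetricSpace M] (φ : (Fin (k + 1) → ℕ) → M) (σ : ℝ), 0 < σ → ∃ E : Set M,
        dimH E ≤ ENNReal.ofReal (((k : ℝ) + 1 - κ) / σ) ∧ ∀ z : M, z ∉ E → ∀ j : ℕ,
          {t : Fin (k + 1) → ℕ | (∀ i, 1 ≤ t i) ∧ dist (φ t) z ≤ (top t : ℝ) ^ (-σ) ∧
            HasRelation δ d (V j) (fun i => L (t i : A))}.Finite := by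
  obtain ⟨κ, hκ0, hκ1, hC⟩ := NearPadicPoints.counts (k + 1) δ d D (by omega)
  have hk0 : (1 : ℝ) ≤ k := by exact_mod_cast hk
  have hs0 : 0 ≤ (k : ℝ) + 1 - κ := by linarith
  have hfr : Module.finrank ℝ (Fin k → ℝ) = k := by
    rw [Module.finrank_pi, Fintype.card_fin]
  refine ⟨κ, hκ0, hκ1, fun p _ A _ _ _ L hL V hV => ?_⟩
  obtain ⟨C, hC0, h⟩ := hC p
  set S : ℕ → Set (Fin (k + 1) → ℕ) := fun j =>
    {t | (∀ i, 1 ≤ t i) ∧ HasRelation δ d (V j) (fun i => L (t i : A))} with hS
  have hcnt : ∀ j : ℕ, ∀ ε : ℝ, 0 < ε → ∃ C' : ℝ, ∀ X : ℝ, 1 ≤ X → {t | t ∈ S j ∧ ht t ≤ X}.Finite ∧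
      ({t | t ∈ S j ∧ ht t ≤ X}.ncard : ℝ) ≤ C' * X ^ ((k : ℝ) + 1 - κ + ε) := by
    intro j ε hε
    refine ⟨C, fun X hX => ?_⟩
    obtain ⟨g1, g2⟩ := h A L hL (V j) (hV j).1 (hV j).2 X hX
    have hsub : {t | t ∈ S j ∧ ht t ≤ X} ⊆
        {t : Fin (k + 1) → ℕ | (∀ i, (t i : ℝ) ≤ X) ∧ NearPadicPoints.Exceptional L δ d (V j) t} := by
      rintro t ⟨a, b⟩
      refine ⟨fun i => ?_, a⟩
      have h5 : (t i : ℝ) ≤ (top t : ℝ) := by exact_mod_cast le_top t i
      exact h5.trans ((le_max_right _ _).trans b)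
    refine ⟨g1.subset hsub, ?_⟩
    refine le_trans (by exact_mod_cast Set.ncard_le_ncard hsub g1) (g2.trans (mul_le_mul_of_nonneg_left ?_ hC0))
    apply Real.rpow_le_rpow_of_exponent_le hX
    push_cast
    linarith
  refine ⟨?_, fun M _ φ σ hσ => ?_⟩
  · have h1 := Pool.Agent.H2N.ae_family_space (volume : Measure (Fin k → ℝ)) (by rw [hfr]; omega)
      (fun x : Fin (k + 1) → ℕ => fun i : Fin k => (x i.castSucc : ℝ) / (x (Fin.last k) : ℝ)) ht one_le_ht
      hs0 S hcnt
    rw [hfr] at h1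
    filter_upwards [h1] with z hz σ hσ j
    refine (hz σ hσ j).subset ?_
    rintro x ⟨g1, g2, g3⟩
    refine ⟨⟨g1, g3⟩, ?_⟩
    rw [ht_eq g1, dist_pi_le_iff (by positivity)]
    exact g2
  · obtain ⟨E, hE1, hE2⟩ := Pool.Agent.H107.ME.dim_family φ ht one_le_ht hs0 hσ S hcnt
    refine ⟨E, hE1, fun z hz j => (hE2 z hz j).subset ?_⟩
    rintro x ⟨g1, g2, g3⟩
    refine ⟨⟨g1, g3⟩, ?_⟩
    rw [ht_eq g1]
    exact g2

end Pool.Agent.Results.MP_c50dba_nt.TuplesNearDirections
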